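import Pool.Agent.Helper36.CV.StmtsR

set_option autoImplicit false

namespace Pool.Agent.Helper36.CV

open Complex Filter Topology MeasureTheory Set Pointwise

noncomputable section

theorem n2_phi : 1618 / 1000 < phi ∧ phi < 1619 / 1000 ∧ phi ^ 2 = phi + 1 := by
  have h5 : Real.sqrt 5 ^ 2 = 5 := Real.sq_sqrt (by norm_num)
  have h0 : 0 ≤ Real.sqrt 5 := Real.sqrt_nonneg 5
  unfold phi
  refine ⟨?_, ?_, ?_⟩
  · nlinarith
  · nlinarith
  · nlinarith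

theorem n2_cover (N : ℕ) (m L : ℕ → ℝ) (A B : ℝ) (hL : ∀ i, 0 ≤ L i)
    (h : ∑ i ∈ Finset.range N, L i < B - A) :
    ∃ a b : ℝ, A ≤ a ∧ a < b ∧ b ≤ B ∧
      ∀ ε ∈ Ioo a b, ∀ i < N, ε ∉ Icc (m i) (m i + L i) := by
  set U : Set ℝ := ⋃ i ∈ Finset.range N, Icc (m i) (m i + L i) with hU
  have h1 : ¬ Ioo A B ⊆ U := by
    intro hsub
    have h2 : volume (Ioo A B) ≤ volume U := measure_mono hsub
    have h3 : volume U ≤ ∑ i ∈ Finset.range N, volume (Icc (m i) (m i + L i)) :=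
      measure_biUnion_finset_le _ _
    have h4 : ∑ i ∈ Finset.range N, volume (Icc (m i) (m i + L i)) =
        ENNReal.ofReal (∑ i ∈ Finset.range N, L i) := by
      rw [ENNReal.ofReal_sum_of_nonneg (fun i _ => hL i)]
      apply Finset.sum_congr rfl
      intro i _
      rw [Real.volume_Icc]
      congr 1
      ring
    rw [Real.volume_Ioo] at h2
    have h5 := h2.trans (h3.trans h4.le)
    have h6 : 0 ≤ ∑ i ∈ Finset.range N, L i := Finset.sum_nonneg fun i _ => hL i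
    rw [ENNReal.ofReal_le_ofReal_iff h6] at h5
    linarith
  rw [Set.not_subset] at h1
  obtain ⟨e, he, heU⟩ := h1
  have hcl : IsClosed U := by
    rw [hU]
    exact Set.Finite.isClosed_biUnion (Finset.finite_toSet _) fun i _ => isClosed_Icc
  have hop : IsOpen (Ioo A B \ U) := isOpen_Ioo.sdiff hcl
  obtain ⟨r, hr, hball⟩ := Metric.isOpen_iff.1 hop e ⟨he, heU⟩
  rw [Real.ball_eq_Ioo] at hball
  refine ⟨e - r / 2, e + r / 2, ?_, by linarith, ?_, ?_⟩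
  · have h7 : e - r / 2 ∈ Ioo (e - r) (e + r) := ⟨by linarith, by linarith⟩
    exact (hball h7).1.1.le
  · have h7 : e + r / 2 ∈ Ioo (e - r) (e + r) := ⟨by linarith, by linarith⟩
    exact (hball h7).1.2.le
  · intro ε hε i hi hmem
    have h7 : ε ∈ Ioo (e - r) (e + r) := ⟨by linarith [hε.1], by linarith [hε.2]⟩
    apply (hball h7).2
    rw [hU, Set.mem_iUnion₂]
    exact ⟨i, Finset.mem_range.2 hi, hmem⟩

/-- the bad parameters for one unit -/
def n2_bad (s T u : ℝ) : Set ℝ :=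
  {ε | 3 / 5 * s < ε ∧ ε < 19 / 10 * s ∧ ∃ z : ℤ × ℤ, 0 < zv z ∧ 78 / 10 * ε * |zc z| ≤ 1 ∧
    |4 * zv z ^ 2 - u ^ 2 - 1 - 2 * (ε * u)| ≤ T * (ε * u)}

theorem n2_uniq (hN0 : ST_N0) (s T u e1 e2 : ℝ) (z1 z2 : ℤ × ℤ) (hs : 0 < s) (hT0 : 0 ≤ T)
    (hT : T ≤ 1) (hu : 0 < u) (a1 : 3 / 5 * s < e1) (b1 : e1 < 19 / 10 * s)
    (a2 : 3 / 5 * s < e2) (b2 : e2 < 19 / 10 * s) (c1 : 0 < zv z1) (c2 : 0 < zv z2)
    (d1 : 78 / 10 * e1 * |zc z1| ≤ 1) (d2 : 78 / 10 * e2 * |zc z2| ≤ 1)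
    (f1 : |4 * zv z1 ^ 2 - u ^ 2 - 1 - 2 * (e1 * u)| ≤ T * (e1 * u))
    (f2 : |4 * zv z2 ^ 2 - u ^ 2 - 1 - 2 * (e2 * u)| ≤ T * (e2 * u)) : z1 = z2 := by
  obtain ⟨_, hprod, hzero, _⟩ := hN0
  set d : ℤ × ℤ := (z1.1 - z2.1, z1.2 - z2.2) with hd
  have hv : zv d = zv z1 - zv z2 := by
    unfold zv
    rw [hd]
    push_cast
    ring
  have hc : zc d = zc z1 - zc z2 := by
    unfold zc
    rw [hd]
    push_cast
    ring
  have hd0 : zn d = 0 := by
    have h1 := hprod d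
    have e1p : 0 < e1 := by linarith [mul_pos (by norm_num : (0 : ℝ) < 3 / 5) hs]
    have e2p : 0 < e2 := by linarith [mul_pos (by norm_num : (0 : ℝ) < 3 / 5) hs]
    obtain ⟨f1a, f1b⟩ := abs_le.1 f1
    obtain ⟨f2a, f2b⟩ := abs_le.1 f2
    have g1 : u ≤ 2 * zv z1 := by
      have h3 : u ^ 2 ≤ (2 * zv z1) ^ 2 := by
        have : 0 ≤ (2 - T) * (e1 * u) := mul_nonneg (by linarith) (by positivity)
        nlinarith
      exact le_of_pow_le_pow_left₀ two_ne_zero (by positivity) h3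
    have g2 : u ≤ 2 * zv z2 := by
      have h3 : u ^ 2 ≤ (2 * zv z2) ^ 2 := by
        have : 0 ≤ (2 - T) * (e2 * u) := mul_nonneg (by linarith) (by positivity)
        nlinarith
      exact le_of_pow_le_pow_left₀ two_ne_zero (by positivity) h3
    have k1 : 0 < e1 * u := by positivity
    have k2 : 0 < e2 * u := by positivity
    have m1 : e1 * u ≤ 19 / 10 * s * u := mul_le_mul_of_nonneg_right b1.le hu.le
    have m2 : e2 * u ≤ 19 / 10 * s * u := mul_le_mul_of_nonneg_right b2.le hu.le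
    have n1 : 3 / 5 * s * u ≤ e1 * u := mul_le_mul_of_nonneg_right a1.le hu.le
    have n2 : 3 / 5 * s * u ≤ e2 * u := mul_le_mul_of_nonneg_right a2.le hu.le
    have su : 0 < s * u := mul_pos hs hu
    have q1 : T * (e1 * u) ≤ e1 * u := by nlinarith
    have q2 : T * (e2 * u) ≤ e2 * u := by nlinarith
    have r1 : |4 * zv z1 ^ 2 - 4 * zv z2 ^ 2| ≤ 51 / 10 * (s * u) := by
      rw [abs_le]
      constructor <;> nlinarith
    have r2 : |4 * zv z1 ^ 2 - 4 * zv z2 ^ 2| = 4 * (zv z1 + zv z2) * |zv d| := by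
      rw [hv]
      have : 4 * zv z1 ^ 2 - 4 * zv z2 ^ 2 = 4 * (zv z1 + zv z2) * (zv z1 - zv z2) := by ring
      rw [this, abs_mul, abs_of_pos (by positivity : 0 < 4 * (zv z1 + zv z2))]
    have r3 : 4 * u * |zv d| ≤ 51 / 10 * (s * u) := by
      rw [r2] at r1
      refine le_trans ?_ r1
      apply mul_le_mul_of_nonneg_right _ (abs_nonneg _)
      linarith
    have r4 : |zv d| ≤ 51 / 40 * s := by
      have : u * (4 * |zv d|) ≤ u * (51 / 10 * s) := by linarith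
      have := le_of_mul_le_mul_left this hu
      linarith
    have t1 : s * |zc z1| ≤ 10 / 46 := by
      have : 3 / 5 * s * |zc z1| ≤ e1 * |zc z1| := mul_le_mul_of_nonneg_right a1.le (abs_nonneg _)
      linarith
    have t2 : s * |zc z2| ≤ 10 / 46 := by
      have : 3 / 5 * s * |zc z2| ≤ e2 * |zc z2| := mul_le_mul_of_nonneg_right a2.le (abs_nonneg _)
      linarith
    have t3 : s * |zc d| ≤ 20 / 46 := by
      rw [hc]
      have : |zc z1 - zc z2| ≤ |zc z1| + |zc z2| := abs_sub _ _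
      have := mul_le_mul_of_nonneg_left this hs.le
      linarith
    have t4 : |(zn d : ℝ)| < 1 := by
      rw [← h1, abs_mul]
      calc |zv d| * |zc d| ≤ 51 / 40 * s * |zc d| :=
            mul_le_mul_of_nonneg_right r4 (abs_nonneg _)
        _ = 51 / 40 * (s * |zc d|) := by ring
        _ ≤ 51 / 40 * (20 / 46) := by linarith
        _ < 1 := by norm_num
    have t5 : |zn d| < 1 := by exact_mod_cast t4
    exact Int.abs_lt_one_iff.1 t5
  have h2 := hzero d hd0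
  rw [hd, Prod.mk_eq_zero] at h2
  ext
  · linarith [h2.1]
  · linarith [h2.2]

theorem n2_diam (hN0 : ST_N0) (s T u : ℝ) (hs : 0 < s) (hT0 : 0 ≤ T)
    (hT : T ≤ 1) (hu : 0 < u) : ∀ e1 ∈ n2_bad s T u, ∀ e2 ∈ n2_bad s T u,
    e1 - e2 ≤ 19 / 10 * s * T := by
  intro e1 h1 e2 h2
  obtain ⟨a1, b1, z1, c1, d1, f1⟩ := h1
  obtain ⟨a2, b2, z2, c2, d2, f2⟩ := h2
  have hz := n2_uniq hN0 s T u e1 e2 z1 z2 hs hT0 hT hu a1 b1 a2 b2 c1 c2 d1 d2 f1 f2
  subst hz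
  obtain ⟨f1a, f1b⟩ := abs_le.1 f1
  obtain ⟨f2a, f2b⟩ := abs_le.1 f2
  have h3 : u * (2 * (e1 - e2)) ≤ u * (T * (e1 + e2)) := by nlinarith
  have h4 := le_of_mul_le_mul_left h3 hu
  have h5 : T * (e1 + e2) ≤ T * (2 * (19 / 10 * s)) :=
    mul_le_mul_of_nonneg_left (by linarith) hT0
  linarith

theorem n2_icc (S : Set ℝ) (c L : ℝ) (hb : ∀ e ∈ S, c ≤ e)
    (h : ∀ e1 ∈ S, ∀ e2 ∈ S, e1 - e2 ≤ L) : ∃ m : ℝ, S ⊆ Icc m (m + L) := by
  rcases S.eq_empty_or_nonempty with hS | hS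
  · exact ⟨0, by rw [hS]; exact Set.empty_subset _⟩
  · refine ⟨sInf S, fun e he => ⟨csInf_le ⟨c, fun x hx => hb x hx⟩ he, ?_⟩⟩
    have h1 : e - L ≤ sInf S := le_csInf hS fun x hx => by linarith [h e he x hx]
    linarith

/-- the reciprocal of the fourth power -/
def n2_a : ℝ := (phi ^ 4)⁻¹

theorem n2_a_pos : 0 < n2_a := by
  have := n2_phi
  unfold n2_a
  have : 0 < phi := by linarith [this.1]
  positivity

theorem n2_a_le : n2_a ≤ 146 / 1000 := by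
  obtain ⟨h1, h2, h3⟩ := n2_phi
  unfold n2_a
  have h4 : phi ^ 4 = 3 * phi + 2 := by
    calc phi ^ 4 = (phi ^ 2) ^ 2 := by ring
      _ = 3 * phi + 2 := by rw [h3]; linarith [h3, sq phi, (by ring : (phi + 1) ^ 2 = phi ^ 2 + 2 * phi + 1)]
  rw [h4]
  rw [inv_eq_one_div, div_le_iff₀ (by linarith)]
  linarith

theorem n2_rpow (i : ℕ) : (phi ^ (6 * i)) ^ (-(2 / 3) : ℝ) = n2_a ^ i := by
  have hp : 0 < phi := by linarith [n2_phi.1]
  unfold n2_a
  rw [inv_pow, ← pow_mul, ← Real.rpow_natCast phi (6 * i), ← Real.rpow_natCast phi (4 * i),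
    ← Real.rpow_mul hp.le, ← Real.rpow_neg hp.le]
  congr 1
  push_cast
  ring

theorem n2_sq (i : ℕ) : 100 / (phi ^ (6 * i)) ^ 2 = 100 * (n2_a ^ 3) ^ i := by
  have hp : 0 < phi := by linarith [n2_phi.1]
  unfold n2_a
  rw [div_eq_mul_inv, ← pow_mul, ← pow_mul, inv_pow, ← pow_mul]
  congr 3
  ring

theorem n2_geom (x : ℝ) (h0 : 0 ≤ x) (h1 : x < 1) (N : ℕ) :
    ∑ i ∈ Finset.range N, x ^ (i + 1) ≤ x / (1 - x) := by
  have h2 : ∑ i ∈ Finset.range N, x ^ (i + 1) = x * ∑ i ∈ Finset.range N, x ^ i := by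
    rw [Finset.mul_sum]
    apply Finset.sum_congr rfl
    intro i _
    ring
  rw [h2, div_eq_mul_inv]
  apply mul_le_mul_of_nonneg_left _ h0
  have h3 := Summable.sum_le_tsum (Finset.range N) (fun i _ => pow_nonneg h0 i)
    (summable_geometric_of_lt_one h0 h1)
  rw [tsum_geometric_of_lt_one h0 h1] at h3
  exact h3

theorem n2_small (δ : ℝ) (hδ : 0 < δ) : ∃ j : ℕ, 19 / 10 * (phi ^ (6 * j))⁻¹ < δ ∧
    ((j : ℝ) + 2) * (19 / 10 * (phi ^ (6 * j))⁻¹) ^ (1 / 20 : ℝ) ≤ 1 / 10 := by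
  have hp : 1 < phi := by linarith [n2_phi.1]
  have hp0 : 0 < phi := by linarith
  set r : ℝ := ((phi ^ 6)⁻¹) ^ (1 / 20 : ℝ) with hr
  have hq0 : 0 < (phi ^ 6)⁻¹ := by positivity
  have hq1 : (phi ^ 6)⁻¹ < 1 := inv_lt_one_of_one_lt₀ (one_lt_pow₀ hp (by norm_num))
  have hr0 : 0 < r := Real.rpow_pos_of_pos hq0 _
  have hr1 : r < 1 := Real.rpow_lt_one hq0.le hq1 (by norm_num)
  have hrj : ∀ j : ℕ, (19 / 10 * (phi ^ (6 * j))⁻¹) ^ (1 / 20 : ℝ) =
      (19 / 10 : ℝ) ^ (1 / 20 : ℝ) * r ^ j := by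
    intro j
    rw [Real.mul_rpow (by norm_num) (by positivity)]
    congr 1
    rw [hr, ← Real.rpow_natCast (((phi ^ 6)⁻¹) ^ (1 / 20 : ℝ)) j, ← Real.rpow_mul hq0.le,
      mul_comm (1 / 20 : ℝ), Real.rpow_mul hq0.le, Real.rpow_natCast, inv_pow, ← pow_mul]
  have t1 : Tendsto (fun j : ℕ => 19 / 10 * (phi ^ (6 * j))⁻¹) atTop (𝓝 0) := by
    have h1 : Tendsto (fun j : ℕ => ((phi ^ 6)⁻¹) ^ j) atTop (𝓝 0) :=
      tendsto_pow_atTop_nhds_zero_of_lt_one hq0.le hq1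
    have h2 := h1.const_mul (19 / 10 : ℝ)
    rw [mul_zero] at h2
    refine h2.congr fun j => ?_
    rw [inv_pow, ← pow_mul]
  have t2 : Tendsto (fun j : ℕ => ((j : ℝ) + 2) *
      (19 / 10 * (phi ^ (6 * j))⁻¹) ^ (1 / 20 : ℝ)) atTop (𝓝 0) := by
    have h1 : Tendsto (fun j : ℕ => (j : ℝ) * r ^ j) atTop (𝓝 0) :=
      tendsto_self_mul_const_pow_of_lt_one hr0.le hr1
    have h2 : Tendsto (fun j : ℕ => r ^ j) atTop (𝓝 0) :=
      tendsto_pow_atTop_nhds_zero_of_lt_one hr0.le hr1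
    have h3 := (h1.add (h2.const_mul 2)).const_mul ((19 / 10 : ℝ) ^ (1 / 20 : ℝ))
    rw [mul_zero, add_zero, mul_zero] at h3
    refine h3.congr fun j => ?_
    rw [hrj]
    ring
  have e1 := t1.eventually (gt_mem_nhds hδ)
  have e2 := t2.eventually (gt_mem_nhds (by norm_num : (0 : ℝ) < 1 / 10))
  obtain ⟨j, h1, h2⟩ := (e1.and e2).exists
  exact ⟨j, h1, h2.le⟩

theorem n2_index (i j : ℕ) (ε : ℝ) (h1 : 3 / 5 * (phi ^ (6 * j))⁻¹ < ε)
    (h2 : phi ^ (6 * i) ≤ 20 * ε ^ (-(1 / 3) : ℝ)) : i ≤ j + 2 := by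
  by_contra hlt
  push Not at hlt
  obtain ⟨q1, q2, q3⟩ := n2_phi
  have hp : 1 < phi := by linarith
  have hp0 : 0 < phi := by linarith
  have he : 0 < ε := lt_trans (by positivity) h1
  have h3 : (phi ^ (6 * i)) ^ 3 ≤ 8000 * ε⁻¹ := by
    have h4 : (phi ^ (6 * i)) ^ 3 ≤ (20 * ε ^ (-(1 / 3) : ℝ)) ^ 3 :=
      pow_le_pow_left₀ (by positivity) h2 3
    have h5 : (20 * ε ^ (-(1 / 3) : ℝ)) ^ 3 = 8000 * ε⁻¹ := by
      rw [mul_pow, ← Real.rpow_natCast (ε ^ (-(1 / 3) : ℝ)) 3, ← Real.rpow_mul he.le]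
      have : (-(1 / 3) : ℝ) * ((3 : ℕ) : ℝ) = -1 := by norm_num
      rw [this, Real.rpow_neg_one]
      norm_num
    rwa [h5] at h4
  have h6 : ε⁻¹ < 5 / 3 * phi ^ (6 * j) := by
    have h7 : (3 / 5 * (phi ^ (6 * j))⁻¹)⁻¹ = 5 / 3 * phi ^ (6 * j) := by
      rw [mul_inv, inv_inv]
      norm_num
    rw [← h7]
    exact inv_strictAnti₀ (by positivity) h1
  have h8 : phi ^ (6 * j) * phi ^ 54 ≤ (phi ^ (6 * i)) ^ 3 := by
    rw [← pow_add, ← pow_mul]
    exact pow_le_pow_right₀ hp.le (by omega)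
  have h9 : (13334 : ℝ) ≤ phi ^ 54 := by
    calc (13334 : ℝ) ≤ (1618 / 1000) ^ 20 := by norm_num
      _ ≤ phi ^ 20 := pow_le_pow_left₀ (by norm_num) q1.le 20
      _ ≤ phi ^ 54 := pow_le_pow_right₀ hp.le (by norm_num)
  have h10 : 0 < phi ^ (6 * j) := by positivity
  nlinarith

theorem st_N2 (hN0 : ST_N0) : ST_N2 := by
  intro δ hδ
  obtain ⟨j, hj1, hj2⟩ := n2_small δ hδ
  have hp : 1 < phi := by linarith [n2_phi.1]
  have hp0 : 0 < phi := by linarith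
  set s : ℝ := (phi ^ (6 * j))⁻¹ with hs
  have hs0 : 0 < s := by positivity
  set σ : ℝ := (19 / 10 * s) ^ (1 / 20 : ℝ) with hσ
  have hσ0 : 0 < σ := Real.rpow_pos_of_pos (by positivity) _
  have ha0 := n2_a_pos
  have ha1 := n2_a_le
  have hb1 : n2_a ^ 3 ≤ 3113 / 1000000 := by
    calc n2_a ^ 3 ≤ (146 / 1000) ^ 3 := pow_le_pow_left₀ ha0.le ha1 3
      _ ≤ 3113 / 1000000 := by norm_num
  have hb0 : 0 < n2_a ^ 3 := by positivity
  set T : ℕ → ℝ := fun i => 14 / 10 * n2_a ^ (i + 1) + 100 * (n2_a ^ 3) ^ (i + 1) + σ with hT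
  have hσ1 : σ ≤ 1 / 20 := by
    have : (2 : ℝ) * σ ≤ ((j : ℝ) + 2) * σ := by
      apply mul_le_mul_of_nonneg_right _ hσ0.le
      have : (0 : ℝ) ≤ j := Nat.cast_nonneg j
      linarith
    linarith
  have hT0 : ∀ i, 0 ≤ T i := fun i => by simp only [hT]; positivity
  have hT1 : ∀ i, T i ≤ 1 := by
    intro i
    simp only [hT]
    have h1 : n2_a ^ (i + 1) ≤ n2_a := by
      calc n2_a ^ (i + 1) ≤ n2_a ^ 1 :=
            pow_le_pow_of_le_one ha0.le (by linarith) (by omega)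
        _ = n2_a := pow_one _
    have h2 : (n2_a ^ 3) ^ (i + 1) ≤ n2_a ^ 3 := by
      calc (n2_a ^ 3) ^ (i + 1) ≤ (n2_a ^ 3) ^ 1 :=
            pow_le_pow_of_le_one hb0.le (by linarith) (by omega)
        _ = n2_a ^ 3 := pow_one _
    linarith
  have hex : ∀ i : ℕ, ∃ m : ℝ, n2_bad s (T i) (phi ^ (6 * (i + 1))) ⊆
      Icc m (m + 19 / 10 * s * T i) := by
    intro i
    apply n2_icc _ (3 / 5 * s)
    · intro e he
      exact he.1.le
    · exact n2_diam hN0 s (T i) _ hs0 (hT0 i) (hT1 i) (by positivity)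
  choose m hm using hex
  have hsum : ∑ i ∈ Finset.range (j + 2), 19 / 10 * s * T i < 19 / 10 * s - 3 / 5 * s := by
    have h1 : ∑ i ∈ Finset.range (j + 2), 19 / 10 * s * T i =
        19 / 10 * s * (14 / 10 * ∑ i ∈ Finset.range (j + 2), n2_a ^ (i + 1) +
          100 * ∑ i ∈ Finset.range (j + 2), (n2_a ^ 3) ^ (i + 1) + ((j : ℝ) + 2) * σ) := by
      simp only [hT]
      rw [← Finset.mul_sum, Finset.sum_add_distrib, Finset.sum_add_distrib, ← Finset.mul_sum,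
        ← Finset.mul_sum, Finset.sum_const, Finset.card_range, nsmul_eq_mul]
      push_cast
      ring
    have h2 := n2_geom n2_a ha0.le (by linarith) (j + 2)
    have h3 := n2_geom (n2_a ^ 3) hb0.le (by linarith) (j + 2)
    have h4 : n2_a / (1 - n2_a) ≤ 172 / 1000 := by
      rw [div_le_iff₀ (by linarith)]
      linarith
    have h5 : n2_a ^ 3 / (1 - n2_a ^ 3) ≤ 3130 / 1000000 := by
      rw [div_le_iff₀ (by linarith)]
      linarith
    rw [h1]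
    have h6 : 14 / 10 * ∑ i ∈ Finset.range (j + 2), n2_a ^ (i + 1) +
          100 * ∑ i ∈ Finset.range (j + 2), (n2_a ^ 3) ^ (i + 1) + ((j : ℝ) + 2) * σ ≤
          67 / 100 := by linarith
    have h7 : 19 / 10 * s * (14 / 10 * ∑ i ∈ Finset.range (j + 2), n2_a ^ (i + 1) +
          100 * ∑ i ∈ Finset.range (j + 2), (n2_a ^ 3) ^ (i + 1) + ((j : ℝ) + 2) * σ) ≤
          19 / 10 * s * (67 / 100) := mul_le_mul_of_nonneg_left h6 (by positivity)
    linarith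
  obtain ⟨a, b, hA, hab, hB, hgood⟩ := n2_cover (j + 2) m (fun i => 19 / 10 * s * T i)
    (3 / 5 * s) (19 / 10 * s) (fun i => by have := hT0 i; positivity) hsum
  refine ⟨a, b, lt_of_lt_of_le (by positivity) hA, hab, lt_of_le_of_lt hB hj1, ?_⟩
  intro ε hε
  have he1 : 3 / 5 * s < ε := lt_of_le_of_lt hA hε.1
  have he2 : ε < 19 / 10 * s := lt_of_lt_of_le hε.2 hB
  have he0 : 0 < ε := lt_trans (by positivity) he1
  have hsp : s * phi ^ (6 * j) = 1 := by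
    rw [hs]
    exact inv_mul_cancel₀ (by positivity)
  refine ⟨⟨j, ?_, ?_⟩, ?_⟩
  · have h1 := mul_le_mul_of_nonneg_right he1.le (by positivity : 0 ≤ phi ^ (6 * j))
    rw [mul_assoc, hsp, mul_one] at h1
    exact h1
  · have h1 := mul_le_mul_of_nonneg_right he2.le (by positivity : 0 ≤ phi ^ (6 * j))
    rw [mul_assoc, hsp, mul_one] at h1
    exact h1
  · intro i u hi hu hule z hz hzc
    by_contra hcon
    push Not at hcon
    obtain ⟨i', rfl⟩ : ∃ i', i = i' + 1 := ⟨i - 1, by omega⟩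
    have hij : i' + 1 ≤ j + 2 := n2_index (i' + 1) j ε he1 (by rw [← hu]; exact hule)
    apply hgood ε hε i' (by omega)
    apply hm i'
    refine ⟨he1, he2, z, hz, hzc, ?_⟩
    rw [hu] at hcon
    refine hcon.trans ?_
    apply mul_le_mul_of_nonneg_right _ (by positivity)
    rw [n2_rpow, n2_sq]
    simp only [hT]
    have h2 : ε ^ (1 / 20 : ℝ) ≤ σ := Real.rpow_le_rpow he0.le he2.le (by norm_num)
    linarith

end

end Pool.Agent.Helper36.CV
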