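import Pool.Agent.Helper36.CV.StmtsR

set_option autoImplicit false

namespace Pool.Agent.Helper36.CV

open Complex Filter Topology MeasureTheory Set Pointwise

noncomputable section

theorem r3_near {Hm Hp : ℝ} {C : Set ℝ} {cd : CD Hm Hp C} (V : Gap cd) (x : ℝ) :
    ∃ t ∈ Icc V.a V.b, |t - x| ≤ V.dist x := by
  have hab := V.lt
  unfold Gap.dist
  rcases lt_or_ge x V.a with h | h
  · refine ⟨V.a, ⟨le_rfl, hab.le⟩, ?_⟩
    rw [abs_of_pos (by linarith)]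
    exact le_max_of_le_right (le_max_left _ _)
  · rcases lt_or_ge V.b x with h' | h'
    · refine ⟨V.b, ⟨hab.le, le_rfl⟩, ?_⟩
      rw [abs_of_neg (by linarith)]
      have : -(V.b - x) = x - V.b := by ring
      rw [this]
      exact le_max_of_le_right (le_max_right _ _)
    · refine ⟨x, ⟨h, h'⟩, ?_⟩
      simp

theorem r3_dist {Hm Hp : ℝ} {C : Set ℝ} {cd : CD Hm Hp C} (V : Gap cd) (x : ℝ) :
    0 ≤ V.dist x ∧ V.a - x ≤ V.dist x ∧ x - V.b ≤ V.dist x ∧ |x - V.c| ≤ V.dist x + V.s / 2 := by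
  have h1 : 0 ≤ V.dist x := le_max_left _ _
  have h2 : V.a - x ≤ V.dist x := le_max_of_le_right (le_max_left _ _)
  have h3 : x - V.b ≤ V.dist x := le_max_of_le_right (le_max_right _ _)
  refine ⟨h1, h2, h3, ?_⟩
  unfold Gap.c Gap.s
  rw [abs_le]
  constructor <;> linarith

theorem r3_win (hP1 : ST_P1) {Hm Hp : ℝ} {C : Set ℝ} (cd : CD Hm Hp C) (ε x ρ : ℝ)
    (V0 : Gap cd) (hρ : 0 < ρ) (hε : 0 < ε) (hv : ¬ NV ε x ρ V0) (hJ : Yf cd x ρ ≤ ε ^ 3)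
    (d t : ℝ) (hd : max ρ (V0.dist x) ≤ d) (ht : |t - x| ≤ d) :
    |Nf cd t - V0.N| * (|V0.mu| + 1) ≤ 12 * (d / ρ) * (ε ^ (2 / 5 : ℝ) + ε ^ 3) := by
  obtain ⟨_, _, h3, _, _, h6⟩ := hP1 Hm Hp C cd
  unfold NV at hv
  push Not at hv
  set r0 := max ρ (V0.dist x) with hr0
  have hr0ρ : ρ ≤ r0 := le_max_left _ _
  have hr0p : 0 < r0 := lt_of_lt_of_le hρ hr0ρ
  have hdp : 0 < d := lt_of_lt_of_le hr0p hd
  obtain ⟨t0, ht0, ht0x⟩ := r3_near V0 x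
  have hN0 : Nf cd t0 = V0.N := V0.lab t0 ht0
  have ht0d : |t0 - x| ≤ d := ht0x.trans ((le_max_right _ _).trans hd)
  have h7 := h6 x d t t0 hdp ht ht0d
  rw [hN0] at h7
  obtain ⟨_, _, h8⟩ := h3 x r0 d hr0p hd
  obtain ⟨_, _, h9⟩ := h3 x ρ r0 hρ hr0ρ
  obtain ⟨hYp, _, _⟩ := h3 x r0 r0 hr0p le_rfl
  have hs1 : 1 ≤ Real.sqrt (r0 / ρ) := by
    rw [Real.one_le_sqrt]
    rw [le_div_iff₀ hρ]
    linarith
  have hm0 := abs_nonneg V0.mu
  have hmY : |V0.mu| * Yf cd x r0 ≤ ε ^ (2 / 5 : ℝ) := by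
    refine le_trans ?_ hv.le
    calc |V0.mu| * Yf cd x r0 = |V0.mu| * 1 * Yf cd x r0 := by ring
      _ ≤ |V0.mu| * Real.sqrt (r0 / ρ) * Yf cd x r0 := by
          apply mul_le_mul_of_nonneg_right _ hYp.le
          exact mul_le_mul_of_nonneg_left hs1 hm0
  have hYd : Yf cd x d ≤ d / r0 * Yf cd x r0 := by
    rw [div_le_div_iff₀ hdp hr0p] at h8
    rw [div_mul_eq_mul_div, le_div_iff₀ hr0p]
    linarith
  have hYr : Yf cd x r0 ≤ r0 / ρ * ε ^ 3 := by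
    rw [div_le_div_iff₀ hr0p hρ] at h9
    have h10 : Yf cd x r0 ≤ r0 / ρ * Yf cd x ρ := by
      rw [div_mul_eq_mul_div, le_div_iff₀ hρ]
      linarith
    exact h10.trans (mul_le_mul_of_nonneg_left hJ (by positivity))
  have hdr : d / r0 ≤ d / ρ := div_le_div_of_nonneg_left hdp.le hρ hr0ρ
  have hE : 0 < ε ^ (2 / 5 : ℝ) := Real.rpow_pos_of_pos hε _
  have hdr0 : 0 ≤ d / r0 := by positivity
  have e1 : d / r0 * (|V0.mu| * Yf cd x r0) ≤ d / ρ * ε ^ (2 / 5 : ℝ) :=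
    mul_le_mul hdr hmY (by positivity) (by positivity)
  have e2 : d / r0 * Yf cd x r0 ≤ d / ρ * ε ^ 3 := by
    calc d / r0 * Yf cd x r0 ≤ d / r0 * (r0 / ρ * ε ^ 3) := mul_le_mul_of_nonneg_left hYr hdr0
      _ = d / ρ * ε ^ 3 := by field_simp
  calc |Nf cd t - V0.N| * (|V0.mu| + 1) ≤ 12 * Yf cd x d * (|V0.mu| + 1) :=
        mul_le_mul_of_nonneg_right h7 (by linarith)
    _ ≤ 12 * (d / r0 * Yf cd x r0) * (|V0.mu| + 1) := by
        apply mul_le_mul_of_nonneg_right _ (by linarith)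
        linarith
    _ = 12 * (d / r0 * (|V0.mu| * Yf cd x r0) + d / r0 * Yf cd x r0) := by ring
    _ ≤ 12 * (d / ρ * ε ^ (2 / 5 : ℝ) + d / ρ * ε ^ 3) := by linarith
    _ = 12 * (d / ρ) * (ε ^ (2 / 5 : ℝ) + ε ^ 3) := by ring

theorem r3_arith (s X h ε A B : ℝ) (hs : 0 ≤ s) (hX : 0 < X) (hA : A ≤ 1 / 1000)
    (hε : 0 < ε) (hε1 : ε ≤ 1 / 10 ^ 6) (hB : B ≤ 1 / 1000) (hXh : 0 ≤ X ^ 2 - h ^ 2)
    (hB0 : 0 ≤ B)
    (hm : s * (1 - A) * X ≤ ε / 2 * (1 + 98 * ε) * (1 + B) * (X ^ 2 - h ^ 2)) :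
    s * X ≤ 502 / 1000 * ε * (X ^ 2 - h ^ 2) := by
  have h1 : s * X * (999 / 1000) ≤ s * (1 - A) * X := by
    have : s * (1 - A) * X = s * X * (1 - A) := by ring
    rw [this]
    exact mul_le_mul_of_nonneg_left (by linarith) (by positivity)
  have h2 : ε / 2 * (1 + 98 * ε) * (1 + B) ≤ ε * (5011 / 10000) := by
    have h3 : (1 + 98 * ε) ≤ 10001 / 10000 := by
      have : (1 : ℝ) / 10 ^ 6 = 1 / 1000000 := by norm_num
      linarith
    have h4 : (1 + 98 * ε) * (1 + B) ≤ 10001 / 10000 * (1001 / 1000) := by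
      apply mul_le_mul h3 (by linarith) (by linarith) (by norm_num)
    have h5 : ε / 2 * ((1 + 98 * ε) * (1 + B)) ≤ ε / 2 * (10001 / 10000 * (1001 / 1000)) :=
      mul_le_mul_of_nonneg_left h4 (by linarith)
    calc ε / 2 * (1 + 98 * ε) * (1 + B) = ε / 2 * ((1 + 98 * ε) * (1 + B)) := by ring
      _ ≤ ε / 2 * (10001 / 10000 * (1001 / 1000)) := h5
      _ ≤ ε * (5011 / 10000) := by linarith
  have h6 : ε / 2 * (1 + 98 * ε) * (1 + B) * (X ^ 2 - h ^ 2) ≤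
      ε * (5011 / 10000) * (X ^ 2 - h ^ 2) := mul_le_mul_of_nonneg_right h2 hXh
  have h7 : 0 ≤ ε * (X ^ 2 - h ^ 2) := mul_nonneg hε.le hXh
  linarith

/-- position of a witness of size at most `2 η ρ` -/
theorem r3_pos (ε ρ z D h η κ : ℝ) (hε : 0 < ε) (hε1 : ε ≤ 1 / 10 ^ 6) (hρ : 0 < ρ)
    (hh0 : 0 ≤ h) (hz0 : 0 ≤ z)
    (hz : z ≤ ε * ρ + 3 * ε ^ 2 * ρ) (hh : h ≤ η * ρ) (hκ : 0 < κ)
    (h1 : η + 51 / 100 * ε ≤ κ) (h2 : 127 / 1000 * η ^ 2 ≤ κ * (κ ^ 2 - η ^ 2))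
    (hD : D ≤ h - 2 / 5 * z ∨ (21 / 20 * z ≤ 2 * h ∧ D ≤ h + z / 2) ∨
      (21 / 20 * z ≤ 2 * h ∧ h < D ∧ 8 * ε * D * (D ^ 2 - h ^ 2) ≤ z * h ^ 2)) :
    D ≤ κ * ρ := by
  have hm : (1 : ℝ) / 10 ^ 6 = 1 / 1000000 := by norm_num
  have hz' : z ≤ 1001 / 1000 * ε * ρ := by
    have : ε * (ε * ρ) ≤ 1 / 1000000 * (ε * ρ) :=
      mul_le_mul_of_nonneg_right (by linarith) (by positivity)
    linarith
  have hκρ : (η + 51 / 100 * ε) * ρ ≤ κ * ρ := mul_le_mul_of_nonneg_right h1 hρ.le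
  have hερ : 0 < ε * ρ := by positivity
  rcases hD with hD | ⟨_, hD⟩ | ⟨_, hD1, hD2⟩
  · linarith
  · linarith
  · by_contra hcon
    push Not at hcon
    have hDp : 0 < D := lt_trans (by positivity) hcon
    have e1 : D * (D ^ 2 - h ^ 2) ≤ 127 / 1000 * ρ * h ^ 2 := by
      have e2 : z * h ^ 2 ≤ 1001 / 1000 * ε * ρ * h ^ 2 :=
        mul_le_mul_of_nonneg_right hz' (sq_nonneg h)
      have e3 : ε * (8 * (D * (D ^ 2 - h ^ 2))) ≤ ε * (1001 / 1000 * ρ * h ^ 2) := by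
        calc ε * (8 * (D * (D ^ 2 - h ^ 2))) = 8 * ε * D * (D ^ 2 - h ^ 2) := by ring
          _ ≤ z * h ^ 2 := hD2
          _ ≤ 1001 / 1000 * ε * ρ * h ^ 2 := e2
          _ = ε * (1001 / 1000 * ρ * h ^ 2) := by ring
      have e4 := le_of_mul_le_mul_left e3 hε
      have e5 : 0 ≤ ρ * h ^ 2 := by positivity
      linarith
    have f1 : (κ ^ 2 - η ^ 2) * ρ ^ 2 < D ^ 2 - h ^ 2 := by
      have g1 : (κ * ρ) ^ 2 < D ^ 2 := pow_lt_pow_left₀ hcon (by positivity) two_ne_zero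
      have g2 : h ^ 2 ≤ (η * ρ) ^ 2 := pow_le_pow_left₀ hh0 hh 2
      linarith
    have f0 : 0 ≤ κ ^ 2 - η ^ 2 := by
      by_contra hneg
      push Not at hneg
      have : κ * (κ ^ 2 - η ^ 2) < 0 := mul_neg_of_pos_of_neg hκ hneg
      linarith [sq_nonneg η]
    have f2 : κ * ρ * ((κ ^ 2 - η ^ 2) * ρ ^ 2) < D * (D ^ 2 - h ^ 2) := by
      have f3 : 0 < D ^ 2 - h ^ 2 := lt_of_le_of_lt (by positivity) f1
      calc κ * ρ * ((κ ^ 2 - η ^ 2) * ρ ^ 2) < κ * ρ * (D ^ 2 - h ^ 2) :=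
            mul_lt_mul_of_pos_left f1 (by positivity)
        _ ≤ D * (D ^ 2 - h ^ 2) := mul_le_mul_of_nonneg_right hcon.le f3.le
    have f4 : h ^ 2 ≤ (η * ρ) ^ 2 := pow_le_pow_left₀ hh0 hh 2
    have f5 : 127 / 1000 * ρ * h ^ 2 ≤ 127 / 1000 * ρ * (η * ρ) ^ 2 :=
      mul_le_mul_of_nonneg_left f4 (by positivity)
    have f6 : 127 / 1000 * η ^ 2 * ρ ^ 3 ≤ κ * (κ ^ 2 - η ^ 2) * ρ ^ 3 :=
      mul_le_mul_of_nonneg_right h2 (by positivity)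
    linarith

/-- the window of a near violator -/
theorem r3_R (hP1 : ST_P1) (hQ4 : ST_Q4) {Hm Hp : ℝ} {C : Set ℝ} (cd : CD Hm Hp C)
    (ε q x ρ : ℝ) (V0 : Gap cd) (hρ : 0 < ρ) (hq : 0 < q) (hq1 : q ≤ 1 / 2000)
    (hεq : ε = q ^ 20) (hεq2 : ε ^ (2 / 5 : ℝ) = q ^ 8) (hPar : Par ε Hm Hp)
    (hv : ¬ NV ε x ρ V0) (hJ : Yf cd x ρ ≤ ε ^ 3) (hmu : 1000 ≤ |V0.mu|)
    (hdist : V0.dist x ≤ 7 / 5 * ρ) :
    ∃ R : ℝ, 0 < R ∧ V0.LW R ∧ V0.s ≤ R ∧ 5 / 2 * ρ + V0.s / 2 ≤ q ^ 4 * R := by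
  have hε : 0 < ε := by rw [hεq]; positivity
  obtain ⟨hd0, _, _, hdc⟩ := r3_dist V0 x
  have hs0 : 0 < V0.s := sub_pos.2 V0.lt
  have hε1 : ε ≤ 1 / 10 ^ 20 := by
    rw [hεq]
    calc q ^ 20 ≤ (1 / 2000) ^ 20 := pow_le_pow_left₀ hq.le hq1 20
      _ ≤ 1 / 10 ^ 20 := by norm_num
  have q4 : 0 < q ^ 4 := by positivity
  have q8 : 0 < q ^ 8 := by positivity
  rcases le_or_gt (V0.s / 2 * q ^ 3) ρ with hc | hc
  · refine ⟨2 / 100 * ρ / q ^ 8, by positivity, ?_, ?_, ?_⟩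
    · intro t ht
      set d : ℝ := 2 / 100 * ρ / q ^ 8 + 7 / 5 * ρ + V0.s / 2 with hd
      have hpos : 0 < 2 / 100 * ρ / q ^ 8 := by positivity
      have hmax : max ρ (V0.dist x) ≤ d := by
        apply max_le
        · rw [hd]; linarith
        · rw [hd]; linarith
      have htx : |t - x| ≤ d := by
        have h1 : |t - x| ≤ |t - V0.c| + |V0.c - x| := abs_sub_le _ _ _
        rw [abs_sub_comm V0.c x] at h1
        rw [hd]
        linarith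
      have h2 := r3_win hP1 cd ε x ρ V0 hρ hε hv hJ d t hmax htx
      refine h2.trans ?_
      have h3 : d / ρ * q ^ 8 ≤ 22 / 1000 := by
        rw [div_mul_eq_mul_div, div_le_iff₀ hρ, hd]
        have h4 : (2 / 100 * ρ / q ^ 8 + 7 / 5 * ρ + V0.s / 2) * q ^ 8 =
            2 / 100 * ρ + 7 / 5 * ρ * q ^ 8 + (V0.s / 2 * q ^ 3) * q ^ 5 := by
          field_simp
        rw [h4]
        have h5 : q ^ 8 ≤ 1 / 10000 := by
          calc q ^ 8 ≤ (1 / 2000) ^ 8 := pow_le_pow_left₀ hq.le hq1 8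
            _ ≤ 1 / 10000 := by norm_num
        have h6 : q ^ 5 ≤ 1 / 10000 := by
          calc q ^ 5 ≤ (1 / 2000) ^ 5 := pow_le_pow_left₀ hq.le hq1 5
            _ ≤ 1 / 10000 := by norm_num
        have h7 : (V0.s / 2 * q ^ 3) * q ^ 5 ≤ ρ * (1 / 10000) :=
          mul_le_mul hc h6 (by positivity) hρ.le
        have h8 : ρ * q ^ 8 ≤ ρ * (1 / 10000) := mul_le_mul_of_nonneg_left h5 hρ.le
        linarith
      have h9 : ε ^ 3 ≤ q ^ 8 := by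
        rw [hεq, ← pow_mul]
        exact pow_le_pow_of_le_one hq.le (by linarith) (by norm_num)
      have hdρ : 0 ≤ d / ρ := by
        have : 0 < d := by rw [hd]; positivity
        positivity
      rw [hεq2]
      have h10 : d / ρ * (q ^ 8 + ε ^ 3) ≤ d / ρ * (q ^ 8 + q ^ 8) :=
        mul_le_mul_of_nonneg_left (by linarith) hdρ
      linarith
    · rw [le_div_iff₀ q8]
      have h6 : q ^ 5 ≤ 1 / 10000 := by
        calc q ^ 5 ≤ (1 / 2000) ^ 5 := pow_le_pow_left₀ hq.le hq1 5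
          _ ≤ 1 / 10000 := by norm_num
      have h7 : (V0.s / 2 * q ^ 3) * q ^ 5 ≤ ρ * (1 / 10000) :=
        mul_le_mul hc h6 (by positivity) hρ.le
      have h8 : V0.s * q ^ 8 = 2 * ((V0.s / 2 * q ^ 3) * q ^ 5) := by ring
      rw [h8]
      linarith
    · have h1 : q ^ 4 * (2 / 100 * ρ / q ^ 8) = 2 / 100 * ρ / q ^ 4 := by
        field_simp
      rw [h1, le_div_iff₀ q4]
      have h5 : q ^ 4 ≤ 1 / 10000 := by
        calc q ^ 4 ≤ (1 / 2000) ^ 4 := pow_le_pow_left₀ hq.le hq1 4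
          _ ≤ 1 / 10000 := by norm_num
      have h7 : (V0.s / 2 * q ^ 3) * q ≤ ρ * (1 / 2000) :=
        mul_le_mul hc hq1 hq.le hρ.le
      have h8 : (5 / 2 * ρ + V0.s / 2) * q ^ 4 =
          5 / 2 * (ρ * q ^ 4) + (V0.s / 2 * q ^ 3) * q := by ring
      rw [h8]
      have h9 : ρ * q ^ 4 ≤ ρ * (1 / 10000) := mul_le_mul_of_nonneg_left h5 hρ.le
      linarith
  · refine ⟨V0.s / (4 * ε), by positivity, ?_, ?_, ?_⟩
    · exact (hQ4 ε Hm Hp C cd hPar (hε1.trans (by norm_num))).2.2.1 V0 hmu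
    · rw [le_div_iff₀ (by positivity)]
      have h1 : 4 * ε ≤ 1 := by
        have : (1 : ℝ) / 10 ^ 20 ≤ 1 / 4 := by norm_num
        linarith
      calc V0.s * (4 * ε) ≤ V0.s * 1 := mul_le_mul_of_nonneg_left h1 hs0.le
        _ = V0.s := mul_one _
    · have h1 : q ^ 4 * (V0.s / (4 * ε)) = V0.s / (4 * q ^ 16) := by
        rw [hεq]
        field_simp
      rw [h1]
      have h2 : V0.s / 2 * 4 ≤ V0.s / (4 * q ^ 16) := by
        rw [le_div_iff₀ (by positivity)]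
        have h3 : q ^ 16 ≤ 1 / 8 := by
          calc q ^ 16 ≤ (1 / 2000) ^ 16 := pow_le_pow_left₀ hq.le hq1 16
            _ ≤ 1 / 8 := by norm_num
        have h4 : V0.s * q ^ 16 ≤ V0.s * (1 / 8) := mul_le_mul_of_nonneg_left h3 hs0.le
        linarith
      have h5 : ρ ≤ V0.s / 2 := by
        have h6 : q ^ 3 ≤ 1 := pow_le_one₀ hq.le (by linarith)
        have h7 : V0.s / 2 * q ^ 3 ≤ V0.s / 2 * 1 :=
          mul_le_mul_of_nonneg_left h6 (by positivity)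
        linarith
      linarith


/-- facts on a witness of an end child -/
theorem r3_fact {Hm Hp : ℝ} {C : Set ℝ} {cd : CD Hm Hp C} (V : Gap cd) (ε ρ x l' r' : ℝ)
    (hε : 0 < ε) (hε1 : ε ≤ 1 / 10 ^ 6) (hρ : 0 < ρ)
    (hz : |(r' - l') - ε * ρ| ≤ 3 * ε ^ 2 * ρ) (hxc : |(l' + r') / 2 - x| ≤ ρ / 2)
    (h1 : (1 - 26 / 10 * ε) * (r' - l') ≤ V.b - V.a)
    (h2 : V.a ≤ (l' + r') / 2 + (r' - l') / (16 * ε))
    (h3 : (l' + r') / 2 - (r' - l') / (16 * ε) ≤ V.b) (hs : V.s < 21 / 20 * ρ) :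
    V.a ≤ (l' + r') / 2 + 63 / 1000 * ρ ∧ (l' + r') / 2 - 63 / 1000 * ρ ≤ V.b ∧
    999 / 1000 * ε * ρ ≤ V.s ∧ (∃ t ∈ Icc V.a V.b, |t - x| ≤ 7 / 5 * ρ) ∧
    |V.c - x| ≤ 11 / 10 * ρ ∧ V.Meets x ρ := by
  have hm : (1 : ℝ) / 10 ^ 6 = 1 / 1000000 := by norm_num
  have hab := V.lt
  obtain ⟨hz1, hz2⟩ := abs_le.1 hz
  obtain ⟨hx1, hx2⟩ := abs_le.1 hxc
  have hερ : 0 < ε * ρ := by positivity
  have he2 : ε ^ 2 * ρ ≤ 1 / 1000000 * (ε * ρ) := by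
    have : ε ^ 2 * ρ = ε * (ε * ρ) := by ring
    rw [this]
    exact mul_le_mul_of_nonneg_right (by linarith) hερ.le
  have hzu : r' - l' ≤ 1001 / 1000 * (ε * ρ) := by linarith
  have hzl : 9999 / 10000 * (ε * ρ) ≤ r' - l' := by linarith
  have hq : (r' - l') / (16 * ε) ≤ 63 / 1000 * ρ := by
    rw [div_le_iff₀ (by positivity)]
    linarith
  have hs1 : 999 / 1000 * ε * ρ ≤ V.s := by
    unfold Gap.s
    refine le_trans ?_ h1
    have h4 : 9999 / 10000 ≤ 1 - 26 / 10 * ε := by linarith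
    calc 999 / 1000 * ε * ρ ≤ 9999 / 10000 * (9999 / 10000 * (ε * ρ)) := by linarith
      _ ≤ (1 - 26 / 10 * ε) * (r' - l') :=
          mul_le_mul h4 hzl (by positivity) (by linarith)
  have ha : V.a ≤ (l' + r') / 2 + 63 / 1000 * ρ := by linarith
  have hb : (l' + r') / 2 - 63 / 1000 * ρ ≤ V.b := by linarith
  have hsV : V.b - V.a < 21 / 20 * ρ := hs
  refine ⟨ha, hb, hs1, ?_, ?_, ?_, ?_⟩
  · rcases le_or_gt V.a ((l' + r') / 2 - 63 / 1000 * ρ) with h | h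
    · refine ⟨(l' + r') / 2 - 63 / 1000 * ρ, ⟨h, hb⟩, ?_⟩
      rw [abs_le]
      constructor <;> linarith
    · refine ⟨V.a, ⟨le_rfl, hab.le⟩, ?_⟩
      rw [abs_le]
      constructor <;> linarith
  · unfold Gap.c
    rw [abs_le]
    constructor <;> linarith
  · linarith
  · linarith

theorem r3_pos' {Hm Hp : ℝ} {C : Set ℝ} {cd : CD Hm Hp C} (V : Gap cd) (ε ρ l' r' η κ : ℝ)
    (hε : 0 < ε) (hε1 : ε ≤ 1 / 10 ^ 6) (hρ : 0 < ρ)
    (hz : |(r' - l') - ε * ρ| ≤ 3 * ε ^ 2 * ρ) (hh : V.s / 2 ≤ η * ρ) (hκ : 0 < κ)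
    (h1 : η + 51 / 100 * ε ≤ κ) (h2 : 127 / 1000 * η ^ 2 ≤ κ * (κ ^ 2 - η ^ 2))
    (hD : |(V.a + V.b) / 2 - (l' + r') / 2| ≤ (V.b - V.a) / 2 - 2 / 5 * (r' - l') ∨
      (21 / 20 * (r' - l') ≤ V.b - V.a ∧
        |(V.a + V.b) / 2 - (l' + r') / 2| ≤ (V.b - V.a) / 2 + (r' - l') / 2) ∨
      (21 / 20 * (r' - l') ≤ V.b - V.a ∧ (V.b - V.a) / 2 < |(l' + r') / 2 - (V.a + V.b) / 2| ∧
        8 * ε * |(l' + r') / 2 - (V.a + V.b) / 2| *
          (((l' + r') / 2 - (V.a + V.b) / 2) ^ 2 - ((V.b - V.a) / 2) ^ 2) ≤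
        (r' - l') * ((V.b - V.a) / 2) ^ 2)) :
    |V.c - (l' + r') / 2| ≤ κ * ρ := by
  have hm : (1 : ℝ) / 10 ^ 6 = 1 / 1000000 := by norm_num
  have hab := V.lt
  obtain ⟨hz1, hz2⟩ := abs_le.1 hz
  have hερ : 0 < ε * ρ := by positivity
  have he2 : ε ^ 2 * ρ ≤ 1 / 1000000 * (ε * ρ) := by
    have : ε ^ 2 * ρ = ε * (ε * ρ) := by ring
    rw [this]
    exact mul_le_mul_of_nonneg_right (by linarith) hερ.le
  have hz0 : 0 ≤ r' - l' := by linarith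
  have hsw : |(l' + r') / 2 - (V.a + V.b) / 2| = |(V.a + V.b) / 2 - (l' + r') / 2| :=
    abs_sub_comm _ _
  apply r3_pos ε ρ (r' - l') |V.c - (l' + r') / 2| (V.s / 2) η κ hε hε1 hρ _ hz0 _ hh hκ h1 h2
  · unfold Gap.c Gap.s
    rcases hD with hD | ⟨hD1, hD2⟩ | ⟨hD1, hD2, hD3⟩
    · left
      exact hD
    · right; left
      exact ⟨by linarith, hD2⟩
    · right; right
      rw [hsw] at hD2 hD3
      refine ⟨by linarith, hD2, ?_⟩
      rw [sq_abs]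
      have e1 : ((V.a + V.b) / 2 - (l' + r') / 2) ^ 2 = ((l' + r') / 2 - (V.a + V.b) / 2) ^ 2 := by
        ring
      rw [e1]
      exact hD3
  · unfold Gap.s
    linarith
  · linarith

/-- the comparison with a near violator -/
theorem r3_step (hP1 : ST_P1) {Hm Hp : ℝ} {C : Set ℝ} (cd : CD Hm Hp C)
    (K ε q x ρ R : ℝ) (V0 V : Gap cd) (hK : 1 ≤ K) (hρ : 0 < ρ) (hq : 0 < q)
    (hq1 : q ≤ 1 / (2000 * K))
    (hεq : ε = q ^ 20) (hεq2 : ε ^ (2 / 5 : ℝ) = q ^ 8)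
    (h7 : ∀ X y : ℝ, X = |V.c - V0.c| → K * X ≤ R → y = X - V0.s / 2 →
      0 < y ∧ V.s ≤ K * ε * y ∧
      (1 - K * (ε + (X / R) ^ (9 / 10 : ℝ))) * |V.N - V0.N| * X ≤ V.kk * (X ^ 2 - (V0.s / 2) ^ 2) ∧
      V.s * (1 - |V.N - V0.N| * (|V0.mu| + |V.N - V0.N|)) * X ≤
        ε / 2 * (1 + 98 * ε) * (1 + K * (ε + (X / R) ^ (9 / 10 : ℝ))) *
          (X ^ 2 - (V0.s / 2) ^ 2))
    (hv : ¬ NV ε x ρ V0) (hJ : Yf cd x ρ ≤ ε ^ 3)
    (hdist : V0.dist x ≤ 7 / 5 * ρ) (hR0 : 0 < R)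
    (hR : 5 / 2 * ρ + V0.s / 2 ≤ q ^ 4 * R) (ht : ∃ t ∈ Icc V.a V.b, |t - x| ≤ 7 / 5 * ρ)
    (hc : |V.c - x| ≤ 11 / 10 * ρ) (hs : 999 / 1000 * ε * ρ ≤ V.s) :
    V0.s / 2 < |V.c - V0.c| ∧ 199 / 200 * ρ ≤ |V.c - V0.c| - V0.s / 2 ∧
    199 / 100 * ρ * |V.c - V0.c| ≤ |V.c - V0.c| ^ 2 - (V0.s / 2) ^ 2 ∧
    V.s / 2 ≤ (13 / 10 * ε) * ρ := by
  have hε : 0 < ε := by rw [hεq]; positivity
  obtain ⟨hd0, _, _, hdc⟩ := r3_dist V0 x
  have hs0 : 0 < V0.s := sub_pos.2 V0.lt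
  have hsV : 0 < V.s := sub_pos.2 V.lt
  have hK0 : 0 < K := by linarith
  have hq2 : K * q ≤ 1 / 2000 := by
    rw [le_div_iff₀ (by positivity)] at hq1
    linarith
  have hq3 : q ≤ 1 / 2000 := by
    have : 1 * q ≤ K * q := mul_le_mul_of_nonneg_right hK hq.le
    linarith
  have hε1 : ε ≤ 1 / 10 ^ 20 := by
    rw [hεq]
    calc q ^ 20 ≤ (1 / 2000) ^ 20 := pow_le_pow_left₀ hq.le hq3 20
      _ ≤ 1 / 10 ^ 20 := by norm_num
  set X : ℝ := |V.c - V0.c| with hX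
  set h : ℝ := V0.s / 2 with hh
  have hXle : X ≤ 5 / 2 * ρ + h := by
    have h1 : |V.c - V0.c| ≤ |V.c - x| + |x - V0.c| := abs_sub_le _ _ _
    rw [hX]
    linarith
  have hXR : X ≤ q ^ 4 * R := hXle.trans hR
  have hX0 : 0 ≤ X := abs_nonneg _
  have hKX : K * X ≤ R := by
    have h1 : K * X ≤ K * (q ^ 4 * R) := mul_le_mul_of_nonneg_left hXR hK0.le
    have h2 : K * (q ^ 4 * R) = (K * q) * q ^ 3 * R := by ring
    have h3 : (K * q) * q ^ 3 ≤ 1 := by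
      calc (K * q) * q ^ 3 ≤ 1 * 1 :=
            mul_le_mul (by linarith) (pow_le_one₀ hq.le (by linarith)) (by positivity) zero_le_one
        _ = 1 := one_mul 1
    have h4 : (K * q) * q ^ 3 * R ≤ 1 * R := mul_le_mul_of_nonneg_right h3 hR0.le
    linarith
  obtain ⟨g1, _, _, g4⟩ := h7 X (X - h) rfl hKX rfl
  have hXp : 0 < X := by linarith
  have hXh : 0 ≤ X ^ 2 - h ^ 2 := by
    have h1 : 0 < h := by rw [hh]; positivity
    have h2 : 0 ≤ (X - h) * (X + h) := mul_nonneg (by linarith) (by linarith)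
    linarith
  -- the factor with the labels
  obtain ⟨t1, ht1, ht1x⟩ := ht
  have hNV : Nf cd t1 = V.N := V.lab t1 ht1
  have hwin := r3_win hP1 cd ε x ρ V0 hρ hε hv hJ (7 / 5 * ρ) t1
    (max_le (by linarith) hdist) ht1x
  rw [hNV, hεq2] at hwin
  have hq8 : q ^ 8 ≤ 1 / 10 ^ 20 := by
    calc q ^ 8 ≤ (1 / 2000) ^ 8 := pow_le_pow_left₀ hq.le hq3 8
      _ ≤ 1 / 10 ^ 20 := by norm_num
  have he3 : ε ^ 3 ≤ 1 / 10 ^ 20 := by
    calc ε ^ 3 ≤ ε ^ 1 := pow_le_pow_of_le_one hε.le (by linarith [hε1, (by norm_num : (1 : ℝ) / 10 ^ 20 ≤ 1)]) (by norm_num)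
      _ ≤ 1 / 10 ^ 20 := by rw [pow_one]; exact hε1
  have hwin2 : |V.N - V0.N| * (|V0.mu| + 1) ≤ 1 / 1000 := by
    refine hwin.trans ?_
    have h1 : 7 / 5 * ρ / ρ = 7 / 5 := by field_simp
    rw [h1]
    have h2 : (1 : ℝ) / 10 ^ 20 ≤ 1 / 1000000 := by norm_num
    linarith
  have hdN : |V.N - V0.N| ≤ 1 := by
    have h1 : |V.N - V0.N| * 1 ≤ |V.N - V0.N| * (|V0.mu| + 1) :=
      mul_le_mul_of_nonneg_left (by linarith [abs_nonneg V0.mu]) (abs_nonneg _)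
    linarith
  have hA : |V.N - V0.N| * (|V0.mu| + |V.N - V0.N|) ≤ 1 / 1000 :=
    le_trans (mul_le_mul_of_nonneg_left (by linarith) (abs_nonneg _)) hwin2
  -- the power
  have hw : (X / R) ^ (9 / 10 : ℝ) ≤ q ^ 2 := by
    have h1 : X / R ≤ q ^ 4 := by
      rw [div_le_iff₀ hR0]
      exact hXR
    have h0 : 0 < X / R := by positivity
    have h2 : X / R ≤ 1 := h1.trans (pow_le_one₀ hq.le (by linarith))
    calc (X / R) ^ (9 / 10 : ℝ) ≤ (X / R) ^ (1 / 2 : ℝ) :=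
          Real.rpow_le_rpow_of_exponent_ge h0 h2 (by norm_num)
      _ = Real.sqrt (X / R) := (Real.sqrt_eq_rpow _).symm
      _ ≤ Real.sqrt (q ^ 4) := Real.sqrt_le_sqrt h1
      _ = q ^ 2 := by
          have : q ^ 4 = (q ^ 2) ^ 2 := by ring
          rw [this, Real.sqrt_sq (by positivity)]
  have hw0 : 0 ≤ (X / R) ^ (9 / 10 : ℝ) := Real.rpow_nonneg (by positivity) _
  have hB : K * (ε + (X / R) ^ (9 / 10 : ℝ)) ≤ 1 / 1000 := by
    have h1 : ε ≤ q ^ 2 := by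
      rw [hεq]
      exact pow_le_pow_of_le_one hq.le (by linarith) (by norm_num)
    have h2 : K * (ε + (X / R) ^ (9 / 10 : ℝ)) ≤ K * (q ^ 2 + q ^ 2) :=
      mul_le_mul_of_nonneg_left (by linarith) hK0.le
    have h3 : K * (q ^ 2 + q ^ 2) = 2 * ((K * q) * q) := by ring
    have h4 : (K * q) * q ≤ 1 / 2000 * 1 := mul_le_mul hq2 (by linarith) hq.le (by norm_num)
    linarith
  have hB0 : 0 ≤ K * (ε + (X / R) ^ (9 / 10 : ℝ)) := by positivity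
  have hmain := r3_arith V.s X h ε _ _ hsV.le hXp hA hε
    (hε1.trans (by norm_num)) hB hXh hB0 g4
  have hc1 : 199 / 100 * ρ * X ≤ X ^ 2 - h ^ 2 := by
    have h1 : 999 / 1000 * ε * ρ * X ≤ V.s * X := mul_le_mul_of_nonneg_right hs hX0
    have h2 : ε * (999 / 1000 * ρ * X) ≤ ε * (502 / 1000 * (X ^ 2 - h ^ 2)) := by
      calc ε * (999 / 1000 * ρ * X) = 999 / 1000 * ε * ρ * X := by ring
        _ ≤ V.s * X := h1
        _ ≤ 502 / 1000 * ε * (X ^ 2 - h ^ 2) := hmain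
        _ = ε * (502 / 1000 * (X ^ 2 - h ^ 2)) := by ring
    have h3 := le_of_mul_le_mul_left h2 hε
    have h4 : 0 < ρ * X := by positivity
    linarith
  have hh0 : 0 < h := by rw [hh]; positivity
  have hfac : X ^ 2 - h ^ 2 ≤ (X - h) * (2 * X) := by linarith [sq_nonneg (X - h)]
  refine ⟨by linarith, ?_, hc1, ?_⟩
  · have h1 : X * (199 / 100 * ρ) ≤ X * (2 * (X - h)) := by linarith
    have h2 := le_of_mul_le_mul_left h1 hXp
    linarith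
  · have h1 : X * V.s ≤ X * (502 / 1000 * ε * (2 * (X - h))) := by
      calc X * V.s = V.s * X := by ring
        _ ≤ 502 / 1000 * ε * (X ^ 2 - h ^ 2) := hmain
        _ ≤ 502 / 1000 * ε * ((X - h) * (2 * X)) :=
            mul_le_mul_of_nonneg_left hfac (by positivity)
        _ = X * (502 / 1000 * ε * (2 * (X - h))) := by ring
    have h2 := le_of_mul_le_mul_left h1 hXp
    have h3 : ε * (X - h) ≤ ε * (5 / 2 * ρ) := mul_le_mul_of_nonneg_left (by linarith) hε.le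
    have h4 : 0 < ε * ρ := by positivity
    linarith

/-- no violator near the centre -/
theorem r3_one (hP1 : ST_P1) (hP2 : ST_P2) (hQ4 : ST_Q4) {Hm Hp : ℝ} {C : Set ℝ}
    (cd : CD Hm Hp C)
    (K ε q x ρ xL xR : ℝ) (V0 VL VR : Gap cd) (hK : 1 ≤ K) (hρ : 0 < ρ) (hq : 0 < q)
    (hq1 : q ≤ 1 / (2000 * K))
    (hεq : ε = q ^ 20) (hεq2 : ε ^ (2 / 5 : ℝ) = q ^ 8) (hPar : Par ε Hm Hp)
    (h7 : ∀ (V0 V : Gap cd) (R x y : ℝ), 1000 ≤ |V0.mu| → V0.LW R → V0.s ≤ R → V ≠ V0 →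
      x = |V.c - V0.c| → K * x ≤ R → y = x - V0.s / 2 →
      0 < y ∧ V.s ≤ K * ε * y ∧
      (1 - K * (ε + (x / R) ^ (9 / 10 : ℝ))) * |V.N - V0.N| * x ≤ V.kk * (x ^ 2 - (V0.s / 2) ^ 2) ∧
      V.s * (1 - |V.N - V0.N| * (|V0.mu| + |V.N - V0.N|)) * x ≤
        ε / 2 * (1 + 98 * ε) * (1 + K * (ε + (x / R) ^ (9 / 10 : ℝ))) *
          (x ^ 2 - (V0.s / 2) ^ 2))
    (hv : ¬ NV ε x ρ V0) (hJ : Yf cd x ρ ≤ ε ^ 3) (hmu : 1000 ≤ |V0.mu|)
    (hdist : V0.dist x ≤ 7 / 5 * ρ) (hord : VL.b < VR.a)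
    (tL : ∃ t ∈ Icc VL.a VL.b, |t - x| ≤ 7 / 5 * ρ)
    (tR : ∃ t ∈ Icc VR.a VR.b, |t - x| ≤ 7 / 5 * ρ)
    (cL : |VL.c - x| ≤ 11 / 10 * ρ) (cR : |VR.c - x| ≤ 11 / 10 * ρ)
    (sL : 999 / 1000 * ε * ρ ≤ VL.s) (sR : 999 / 1000 * ε * ρ ≤ VR.s)
    (sL' : VL.s < 21 / 20 * ρ) (sR' : VR.s < 21 / 20 * ρ)
    (bL : xL - 63 / 1000 * ρ ≤ VL.b) (aR : VR.a ≤ xR + 63 / 1000 * ρ)
    (pL : VL.s / 2 ≤ (13 / 10 * ε) * ρ → |VL.c - xL| ≤ 1 / 1000 * ρ)
    (pR : VR.s / 2 ≤ (13 / 10 * ε) * ρ → |VR.c - xR| ≤ 1 / 1000 * ρ)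
    (dL : 499 / 1000 * ρ ≤ x - xL) (dL' : x - xL ≤ ρ / 2)
    (dR : 499 / 1000 * ρ ≤ xR - x) (dR' : xR - x ≤ ρ / 2) : False := by
  have hK0 : 0 < K := by linarith
  have hq3 : q ≤ 1 / 2000 := by
    have h1 : 1 / (2000 * K) ≤ 1 / 2000 :=
      div_le_div_of_nonneg_left zero_le_one (by norm_num) (by linarith)
    linarith
  obtain ⟨R, hR0, hLW, hsR, hR⟩ := r3_R hP1 hQ4 cd ε q x ρ V0 hρ hq hq3 hεq hεq2 hPar hv hJ hmu hdist
  obtain ⟨hd0, hda, hdb, hdc⟩ := r3_dist V0 x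
  have hs0 : 0 < V0.s := sub_pos.2 V0.lt
  have hcb : V0.c + V0.s / 2 = V0.b := by unfold Gap.c Gap.s; ring
  have hca : V0.c - V0.s / 2 = V0.a := by unfold Gap.c Gap.s; ring
  have hLab := VL.lt
  have hRab := VR.lt
  have h0ab := V0.lt
  have hLc : VL.a < VL.c ∧ VL.c < VL.b := by unfold Gap.c; constructor <;> linarith
  have hRc : VR.a < VR.c ∧ VR.c < VR.b := by unfold Gap.c; constructor <;> linarith
  obtain ⟨_, _, _, _, hP5, hP6, _⟩ := hP2 Hm Hp C cd hPar.2.1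
  have stepL : VL ≠ V0 → _ := fun hne =>
    r3_step hP1 cd K ε q x ρ R V0 VL hK hρ hq hq1 hεq hεq2
      (fun X y e1 e2 e3 => h7 V0 VL R X y hmu hLW hsR hne e1 e2 e3) hv hJ hdist hR0 hR tL cL sL
  have stepR : VR ≠ V0 → _ := fun hne =>
    r3_step hP1 cd K ε q x ρ R V0 VR hK hρ hq hq1 hεq hεq2
      (fun X y e1 e2 e3 => h7 V0 VR R X y hmu hLW hsR hne e1 e2 e3) hv hJ hdist hR0 hR tR cR sR
  by_cases hL : VL = V0
  · have hRne : VR ≠ V0 := by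
      intro h
      rw [hL, h] at hord
      linarith
    obtain ⟨a1, a2, a3, a4⟩ := stepR hRne
    have p1 := pR a4
    obtain ⟨p2, p3⟩ := abs_le.1 p1
    rw [hL] at hord bL sL'
    have e1 : |VR.c - V0.c| = VR.c - V0.c := abs_of_pos (by linarith [hRc.1])
    rw [e1] at a1 a2 a3
    set y := VR.c - V0.c - V0.s / 2 with hy
    set h := V0.s / 2 with hh
    have e2 : VR.c - V0.c = y + h := by rw [hy]; ring
    rw [e2] at a3
    have e3 : y ≤ 1065 / 1000 * ρ := by rw [hy]; linarith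
    have e4 : h < 21 / 40 * ρ := by rw [hh]; linarith
    have e5 : 0 < h := by rw [hh]; positivity
    have e6 : 199 / 100 * ρ * (y + h) ≤ y ^ 2 + 2 * (h * y) := by linarith
    have e7 : y * y ≤ 1065 / 1000 * ρ * y := mul_le_mul_of_nonneg_right e3 (by linarith)
    have e8 : h * y ≤ h * (1065 / 1000 * ρ) := mul_le_mul_of_nonneg_left e3 e5.le
    have e9 : ρ * (199 / 200 * ρ) ≤ ρ * y := mul_le_mul_of_nonneg_left a2 hρ.le
    have e10 : ρ * h ≤ ρ * (21 / 40 * ρ) := mul_le_mul_of_nonneg_left e4.le hρ.le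
    have e11 : 0 < ρ * ρ := by positivity
    linarith
  · by_cases hRr : VR = V0
    · obtain ⟨a1, a2, a3, a4⟩ := stepL hL
      have p1 := pL a4
      obtain ⟨p2, p3⟩ := abs_le.1 p1
      rw [hRr] at hord aR sR'
      have e1 : |VL.c - V0.c| = V0.c - VL.c := by
        rw [abs_sub_comm]
        exact abs_of_pos (by linarith [hLc.2])
      rw [e1] at a1 a2 a3
      set y := V0.c - VL.c - V0.s / 2 with hy
      set h := V0.s / 2 with hh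
      have e2 : V0.c - VL.c = y + h := by rw [hy]; ring
      rw [e2] at a3
      have e3 : y ≤ 1065 / 1000 * ρ := by rw [hy]; linarith
      have e4 : h < 21 / 40 * ρ := by rw [hh]; linarith
      have e5 : 0 < h := by rw [hh]; positivity
      have e6 : 199 / 100 * ρ * (y + h) ≤ y ^ 2 + 2 * (h * y) := by linarith
      have e7 : y * y ≤ 1065 / 1000 * ρ * y := mul_le_mul_of_nonneg_right e3 (by linarith)
      have e8 : h * y ≤ h * (1065 / 1000 * ρ) := mul_le_mul_of_nonneg_left e3 e5.le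
      have e9 : ρ * (199 / 200 * ρ) ≤ ρ * y := mul_le_mul_of_nonneg_left a2 hρ.le
      have e10 : ρ * h ≤ ρ * (21 / 40 * ρ) := mul_le_mul_of_nonneg_left e4.le hρ.le
      have e11 : 0 < ρ * ρ := by positivity
      linarith
    · obtain ⟨a1, a2, a3, a4⟩ := stepL hL
      obtain ⟨b1, b2, b3, b4⟩ := stepR hRr
      obtain ⟨p2, p3⟩ := abs_le.1 (pL a4)
      obtain ⟨r2, r3⟩ := abs_le.1 (pR b4)
      rcases lt_trichotomy V0.a VL.a with hlt | heq | hgt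
      · have h1 := (hP5 V0 VL hlt).1
        have e1 : |VL.c - V0.c| = VL.c - V0.c := abs_of_pos (by linarith [hLc.1])
        rw [e1] at a2
        linarith
      · exact hL (hP6 V0 VL heq).symm
      · have h1 := (hP5 VL V0 hgt).1
        have e1 : |VL.c - V0.c| = V0.c - VL.c := by
          rw [abs_sub_comm]
          exact abs_of_pos (by linarith [hLc.2])
        rw [e1] at a2
        rcases lt_trichotomy V0.a VR.a with hlt' | heq' | hgt'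
        · have h2 := (hP5 V0 VR hlt').1
          have e2 : |VR.c - V0.c| = VR.c - V0.c := abs_of_pos (by linarith [hRc.1])
          rw [e2] at b2
          linarith
        · exact hRr (hP6 V0 VR heq').symm
        · have h2 := (hP5 VR V0 hgt').1
          have e2 : |VR.c - V0.c| = V0.c - VR.c := by
            rw [abs_sub_comm]
            exact abs_of_pos (by linarith [hRc.2])
          rw [e2] at b2
          linarith


theorem st_R3 (hP1 : ST_P1) (hP2 : ST_P2) (hQ4 : ST_Q4) (hQ7 : ST_Q7) (hQ8 : ST_Q8)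
    (hR0 : ST_R0) (hR2 : ST_R2) : ST_R3 := by
  intro cK hcK
  obtain ⟨K, ε7, hK, hε7, h7⟩ := hQ7
  obtain ⟨ε8, hε8, h8⟩ := hQ8
  obtain ⟨εa, hεa, hR0⟩ := hR0
  obtain ⟨εb, hεb, hR2⟩ := hR2 cK hcK
  have hK0 : 0 < K := by linarith
  have hcK0 : 0 < cK := by linarith
  set q0 : ℝ := 1 / (2000 * K) with hq0
  have hq0p : 0 < q0 := by positivity
  refine ⟨min (min ε7 ε8) (min (min εa εb) (min (q0 ^ 20) (1 / cK))), by positivity, ?_⟩
  intro ε Hm Hp C cd hPar hεle τ l r l0 r0 l1 r1 l2 r2 VL VR hpair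
  have l7 : ε ≤ ε7 := hεle.trans ((min_le_left _ _).trans (min_le_left _ _))
  have l8 : ε ≤ ε8 := hεle.trans ((min_le_left _ _).trans (min_le_right _ _))
  have la : ε ≤ εa := hεle.trans ((min_le_right _ _).trans
    ((min_le_left _ _).trans (min_le_left _ _)))
  have lb : ε ≤ εb := hεle.trans ((min_le_right _ _).trans
    ((min_le_left _ _).trans (min_le_right _ _)))
  have lq : ε ≤ q0 ^ 20 := hεle.trans ((min_le_right _ _).trans
    ((min_le_right _ _).trans (min_le_left _ _)))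
  have lc : ε ≤ 1 / cK := hεle.trans ((min_le_right _ _).trans
    ((min_le_right _ _).trans (min_le_right _ _)))
  have hε : 0 < ε := hPar.1
  obtain ⟨hord, _, _, _, _, hJ⟩ := hR2 ε Hm Hp C cd hPar lb τ l r l0 r0 l1 r1 l2 r2 VL VR hpair
  -- the parameter q
  set q : ℝ := ε ^ (1 / 20 : ℝ) with hq
  have hqp : 0 < q := Real.rpow_pos_of_pos hε _
  have hεq : ε = q ^ 20 := by
    rw [hq, ← Real.rpow_natCast (ε ^ (1 / 20 : ℝ)) 20, ← Real.rpow_mul hε.le]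
    norm_num
  have hεq2 : ε ^ (2 / 5 : ℝ) = q ^ 8 := by
    rw [hq, ← Real.rpow_natCast (ε ^ (1 / 20 : ℝ)) 8, ← Real.rpow_mul hε.le]
    norm_num
  have hq1 : q ≤ 1 / (2000 * K) := by
    rw [hεq] at lq
    exact le_of_pow_le_pow_left₀ (by norm_num) hq0p.le lq
  have hq3 : q ≤ 1 / 2000 := by
    have h1 : 1 / (2000 * K) ≤ 1 / 2000 :=
      div_le_div_of_nonneg_left zero_le_one (by norm_num) (by linarith)
    linarith
  have hε20 : ε ≤ 1 / 10 ^ 20 := by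
    rw [hεq]
    calc q ^ 20 ≤ (1 / 2000) ^ 20 := pow_le_pow_left₀ hqp.le hq3 20
      _ ≤ 1 / 10 ^ 20 := by norm_num
  have hε1 : ε ≤ 1 / 10 ^ 6 := hε20.trans (by norm_num)
  have hm : (1 : ℝ) / 10 ^ 6 = 1 / 1000000 := by norm_num
  -- the data of the pair
  have hk := hpair.kids
  have hρ : 0 < r - l := sub_pos.2 hk.lt
  set ρ : ℝ := r - l with hρdef
  set x : ℝ := (l + r) / 2 with hx
  have hcKε : cK * ε ≤ 1 := by
    rw [le_div_iff₀ hcK0] at lc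
    linarith
  have hτ : |τ| ≤ 1 := by
    rcases hk.tt with h | h | h <;> rw [h] <;> norm_num
  have h2ρ : 0 < ε ^ 2 * ρ := by positivity
  have hc3 : cK * ε ^ 3 * ρ ≤ ε ^ 2 * ρ := by
    have : cK * ε ^ 3 * ρ = (cK * ε) * (ε ^ 2 * ρ) := by ring
    rw [this]
    calc (cK * ε) * (ε ^ 2 * ρ) ≤ 1 * (ε ^ 2 * ρ) := mul_le_mul_of_nonneg_right hcKε h2ρ.le
      _ = ε ^ 2 * ρ := one_mul _
  have hτρ : |2 * ε ^ 2 * τ * ρ| ≤ 2 * ε ^ 2 * ρ := by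
    have h1 : |2 * ε ^ 2 * τ * ρ| = 2 * (ε ^ 2 * ρ) * |τ| := by
      rw [abs_mul, abs_mul, abs_of_pos (by positivity : 0 < 2 * ε ^ 2), abs_of_pos hρ]
      ring
    rw [h1]
    calc 2 * (ε ^ 2 * ρ) * |τ| ≤ 2 * (ε ^ 2 * ρ) * 1 :=
          mul_le_mul_of_nonneg_left hτ (by positivity)
      _ = 2 * ε ^ 2 * ρ := by ring
  obtain ⟨t1, t2⟩ := abs_le.1 hτρ
  have hzL : |(r0 - l0) - ε * ρ| ≤ 3 * ε ^ 2 * ρ := by
    obtain ⟨n1, n2⟩ := abs_le.1 hk.n0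
    rw [abs_le]
    constructor <;> linarith
  have hzR : |(r2 - l2) - ε * ρ| ≤ 3 * ε ^ 2 * ρ := by
    obtain ⟨n1, n2⟩ := abs_le.1 hk.n2
    rw [abs_le]
    constructor <;> linarith
  have hερ : 0 < ε * ρ := by positivity
  have he2 : ε ^ 2 * ρ ≤ 1 / 1000000 * (ε * ρ) := by
    have : ε ^ 2 * ρ = ε * (ε * ρ) := by ring
    rw [this]
    exact mul_le_mul_of_nonneg_right (by linarith) hερ.le
  have heρ : ε * ρ ≤ 1 / 1000000 * ρ := mul_le_mul_of_nonneg_right (by linarith) hρ.le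
  obtain ⟨zL1, zL2⟩ := abs_le.1 hzL
  obtain ⟨zR1, zR2⟩ := abs_le.1 hzR
  have e0 := hk.e0
  have e2 := hk.e2
  set xL : ℝ := (l0 + r0) / 2 with hxL
  set xR : ℝ := (l2 + r2) / 2 with hxR
  have dL : x - xL = ρ / 2 - (r0 - l0) / 2 := by
    rw [hx, hxL, hρdef, e0]
    ring
  have dR : xR - x = ρ / 2 - (r2 - l2) / 2 := by
    rw [hx, hxR, hρdef, e2]
    ring
  have hxcL : |xL - x| ≤ ρ / 2 := by
    rw [abs_le]
    constructor <;> linarith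
  have hxcR : |xR - x| ≤ ρ / 2 := by
    rw [abs_le]
    constructor <;> linarith
  have hlrL : l0 < r0 := by linarith
  have hlrR : l2 < r2 := by linarith
  obtain ⟨w1, w2, w3, _, _, w4⟩ := (hR0 ε VL.a VL.b l0 r0 hε la VL.lt hlrL).2 hpair.wL
  obtain ⟨v1, v2, v3, _, _, v4⟩ := (hR0 ε VR.a VR.b l2 r2 hε la VR.lt hlrR).2 hpair.wR
  obtain ⟨fL1, fL2, fL3, fL4, fL5, fL6⟩ :=
    r3_fact VL ε ρ x l0 r0 hε hε1 hρ hzL hxcL w1 w2 w3 hpair.sL
  obtain ⟨fR1, fR2, fR3, fR4, fR5, fR6⟩ :=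
    r3_fact VR ε ρ x l2 r2 hε hε1 hρ hzR hxcR v1 v2 v3 hpair.sR
  have hbigr : 7 / 5 * ρ ≤ ρ / ε ^ 3 := by
    rw [le_div_iff₀ (by positivity)]
    have h1 : ε ^ 3 ≤ 1 / 1000000 := by
      calc ε ^ 3 ≤ ε ^ 1 := pow_le_pow_of_le_one hε.le (by linarith) (by norm_num)
        _ ≤ 1 / 1000000 := by rw [pow_one]; linarith
    have h2 : ρ * ε ^ 3 ≤ ρ * (1 / 1000000) := mul_le_mul_of_nonneg_left h1 hρ.le
    linarith
  have hbigmu : (1000 : ℝ) ≤ 1 / ε ^ 4 := by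
    rw [le_div_iff₀ (by positivity)]
    have h1 : ε ^ 4 ≤ 1 / 1000000 := by
      calc ε ^ 4 ≤ ε ^ 1 := pow_le_pow_of_le_one hε.le (by linarith) (by norm_num)
        _ ≤ 1 / 1000000 := by rw [pow_one]; linarith
    linarith
  have hsm : 127 / 1000 * (13 / 10 * ε) ^ 2 ≤
      1 / 1000 * ((1 / 1000) ^ 2 - (13 / 10 * ε) ^ 2) := by
    have h1 : ε * ε ≤ 1 / 1000000 * (1 / 1000000) :=
      mul_le_mul (by linarith) (by linarith) hε.le (by norm_num)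
    have h2 : (13 / 10 * ε) ^ 2 = 169 / 100 * (ε * ε) := by ring
    rw [h2]
    norm_num
    linarith
  -- first claim
  have hone : ∀ V : Gap cd, ¬ NV ε x ρ V → 7 / 5 * ρ < V.dist x := by
    intro V0 hv
    by_contra hcon
    push Not at hcon
    obtain ⟨k0, k1, k2, _⟩ := r3_dist V0 x
    have hmu : 1000 ≤ |V0.mu| := by
      refine hbigmu.trans (hpair.good.big V0 ?_)
      refine ⟨?_, ?_⟩
      · show V0.a ≤ x + ρ / ε ^ 3
        linarith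
      · show x - ρ / ε ^ 3 ≤ V0.b
        linarith
    refine r3_one hP1 hP2 hQ4 cd K ε q x ρ xL xR V0 VL VR hK hρ hqp hq1 hεq hεq2 hPar
      (h7 ε Hm Hp C cd hPar l7) hv hJ hmu hcon hord fL4 fR4 fL5 fR5 fL3 fR3 hpair.sL hpair.sR
      fL2 fR1 ?_ ?_ (by linarith) (by linarith) (by linarith) (by linarith)
    · intro hs
      exact r3_pos' VL ε ρ l0 r0 (13 / 10 * ε) (1 / 1000) hε hε1 hρ hzL hs (by norm_num)
        (by linarith) hsm w4
    · intro hs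
      exact r3_pos' VR ε ρ l2 r2 (13 / 10 * ε) (1 / 1000) hε hε1 hρ hzR hs (by norm_num)
        (by linarith) hsm v4
  have hReg : Reg cd ε x ρ ρ (fun _ => False) := by
    refine ⟨?_, ?_, ?_⟩
    · intro t ht
      apply hpair.good.inn t
      show |t - x| ≤ ρ / ε ^ 3
      have h1 : |t - x| ≤ ρ := by
        rw [abs_le]
        constructor <;> linarith [ht.1, ht.2]
      linarith
    · intro W hW
      refine hbigmu.trans (hpair.good.big W ?_)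
      refine ⟨?_, ?_⟩
      · show W.a ≤ x + ρ / ε ^ 3
        linarith [hW.1]
      · show x - ρ / ε ^ 3 ≤ W.b
        linarith [hW.2]
    · intro W hW _
      by_contra hnv
      have h1 := hone W hnv
      have h2 : W.dist x ≤ ρ := by
        unfold Gap.dist
        refine max_le hρ.le (max_le ?_ ?_)
        · linarith [hW.1]
        · linarith [hW.2]
      linarith
  have h21 : ρ ≤ ε ^ (-(21 / 20) : ℝ) * ρ := by
    have h1 : 1 ≤ ε ^ (-(21 / 20) : ℝ) := by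
      rw [Real.rpow_neg hε.le]
      exact (one_le_inv₀ (Real.rpow_pos_of_pos hε _)).2
        (Real.rpow_le_one hε.le (by linarith) (by norm_num))
    calc ρ = 1 * ρ := (one_mul ρ).symm
      _ ≤ ε ^ (-(21 / 20) : ℝ) * ρ := mul_le_mul_of_nonneg_right h1 hρ.le
  obtain ⟨_, hsz, _, _⟩ := h8 ε Hm Hp C cd hPar l8 x ρ ρ ρ hρ le_rfl le_rfl h21 hReg
  have sL := hsz VL fL6
  have sR := hsz VR fR6
  -- positions
  have hη : ε ^ (59 / 100 : ℝ) ≤ Real.sqrt ε := by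
    rw [Real.sqrt_eq_rpow]
    exact Real.rpow_le_rpow_of_exponent_ge hε (by linarith) (by norm_num)
  set e3 : ℝ := ε ^ (1 / 3 : ℝ) with he3
  have he3p : 0 < e3 := Real.rpow_pos_of_pos hε _
  have he3c : e3 ^ 3 = ε := by
    rw [he3, ← Real.rpow_natCast (ε ^ (1 / 3 : ℝ)) 3, ← Real.rpow_mul hε.le]
    norm_num
  have he31 : e3 ≤ 1 := Real.rpow_le_one hε.le (by linarith) (by norm_num)
  have hsq : Real.sqrt ε ≤ e3 := by
    rw [Real.sqrt_eq_rpow, he3]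
    exact Real.rpow_le_rpow_of_exponent_ge hε (by linarith) (by norm_num)
  have hsq2 : Real.sqrt ε ^ 2 = ε := Real.sq_sqrt hε.le
  have hsq0 : 0 < Real.sqrt ε := Real.sqrt_pos.2 hε
  have hεs : ε ≤ 1 / 1000 * Real.sqrt ε := by
    have h1 : Real.sqrt ε ≤ 1 / 1000 := by
      rw [Real.sqrt_le_left (by norm_num)]
      linarith
    calc ε = Real.sqrt ε * Real.sqrt ε := by rw [← sq, hsq2]
      _ ≤ 1 / 1000 * Real.sqrt ε := mul_le_mul_of_nonneg_right h1 hsq0.le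
  have hposc1 : Real.sqrt ε / 2 + 51 / 100 * ε ≤ e3 := by linarith
  have hposc2 : 127 / 1000 * (Real.sqrt ε / 2) ^ 2 ≤ e3 * (e3 ^ 2 - (Real.sqrt ε / 2) ^ 2) := by
    have h1 : (Real.sqrt ε / 2) ^ 2 = ε / 4 := by
      rw [div_pow, hsq2]
      norm_num
    rw [h1]
    have h2 : e3 * (e3 ^ 2 - ε / 4) = e3 ^ 3 - e3 * ε / 4 := by ring
    rw [h2, he3c]
    have h3 : e3 * ε ≤ 1 * ε := mul_le_mul_of_nonneg_right he31 hε.le
    linarith
  have hsL2 : VL.s / 2 ≤ Real.sqrt ε / 2 * ρ := by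
    have h1 := mul_le_mul_of_nonneg_right hη hρ.le
    linarith
  have hsR2 : VR.s / 2 ≤ Real.sqrt ε / 2 * ρ := by
    have h1 := mul_le_mul_of_nonneg_right hη hρ.le
    linarith
  exact ⟨hone, hReg, sL, sR,
    r3_pos' VL ε ρ l0 r0 (Real.sqrt ε / 2) e3 hε hε1 hρ hzL hsL2 he3p hposc1 hposc2 w4,
    r3_pos' VR ε ρ l2 r2 (Real.sqrt ε / 2) e3 hε hε1 hρ hzR hsR2 he3p hposc1 hposc2 v4⟩

end

end Pool.Agent.Helper36.CV
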