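import Pool.Agent.Helper36.CV.StmtsW

/-!
# Module T9: the ends of the spectrum
-/

set_option autoImplicit false

namespace Pool.Agent.Helper36.CV

open Complex

theorem t9_X (h8 : ST_T8) (l : ℝ) (h0 : 0 < |l|) (h1 : |l| ≤ 1 / 100) (E : ℝ)
    (hE : 2 + |l| ≤ |E|) : (∀ n, 1 ≤ |X l n E|) ∧ ∀ n, 1 ≤ n → D l n E = 0 := by
  have e1 : 1 ≤ |X l 1 E| := by
    have : X l 1 E = E / 2 := rfl
    rw [this, abs_div, abs_two]
    linarith
  have e2 : 1 ≤ |X l (1 + 1) E| := by
    have : X l (1 + 1) E = (E - l) / 2 := rfl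
    rw [this, abs_div, abs_two]
    have := abs_sub_abs_le_abs_sub E l
    linarith
  have key := h8 l h0 h1 1 E le_rfl e1 e2
  refine ⟨?_, ?_⟩
  · intro n
    rcases Nat.eq_zero_or_pos n with hn | hn
    · subst hn
      have : X l 0 E = 1 := rfl
      rw [this]; simp
    · exact (key n hn).1
  · intro n hn
    exact (key n hn).2.1

theorem t9_D (h7 : ST_T7) (h8 : ST_T8) (l : ℝ) (h0 : 0 < |l|) (h1 : |l| ≤ 1 / 100) (E : ℝ)
    (hE : 2 + |l| ≤ |E|) (n : ℕ) : D l n E = 0 := by
  obtain ⟨a, b⟩ := t9_X h8 l h0 h1 E hE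
  rcases Nat.eq_zero_or_pos n with hn | hn
  · subst hn
    exact h7 l h0 h1 0 E (a 0) (a 1) (a 2)
  · exact b n hn

theorem st_T9 (h7 : ST_T7) (h8 : ST_T8) : ST_T9 := by
  intro l h0 h1 n E
  have hl := abs_nonneg l
  refine ⟨?_, ?_, ?_⟩
  · intro hE
    have hE' : 2 + |l| ≤ |E| := hE.trans (le_abs_self E)
    have hD := t9_D h7 h8 l h0 h1 E hE'
    have h2 : ∀ n, Th l n E = 0 ∧ Th l (n + 1) E = 0 := by
      intro n
      induction n with
      | zero =>
        refine ⟨rfl, ?_⟩
        have : Th l (0 + 1) E = Real.arccos (E / 2) := rfl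
        rw [this]
        exact Real.arccos_of_one_le (by linarith)
      | succ n ih =>
        refine ⟨ih.2, ?_⟩
        have : Th l (n + 1 + 1) E = Th l (n + 1) E + Th l n E + D l n E := rfl
        rw [this, ih.1, ih.2, hD]; ring
    exact (h2 n).1
  · intro hE
    have hE' : 2 + |l| ≤ |E| := by
      have := neg_le_abs E
      linarith
    have hD := t9_D h7 h8 l h0 h1 E hE'
    have h2 : ∀ n, Th l n E = Real.pi * (Nat.fib n : ℝ) ∧
        Th l (n + 1) E = Real.pi * (Nat.fib (n + 1) : ℝ) := by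
      intro n
      induction n with
      | zero =>
        refine ⟨?_, ?_⟩
        · have : Th l 0 E = 0 := rfl
          rw [this]; simp
        · have : Th l (0 + 1) E = Real.arccos (E / 2) := rfl
          rw [this, Real.arccos_of_le_neg_one (by linarith)]
          simp
      | succ n ih =>
        refine ⟨ih.2, ?_⟩
        have : Th l (n + 1 + 1) E = Th l (n + 1) E + Th l n E + D l n E := rfl
        rw [this, ih.1, ih.2, hD, Nat.fib_add_two]
        push_cast
        ring
    exact (h2 n).1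
  · intro hE
    exact (t9_X h8 l h0 h1 E hE).1 n

end Pool.Agent.Helper36.CV
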